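import Pool.Agent.Helper65.CG.Defs2

/-! Module B3 (project UB): counting the families `Fam ℓ V lev x`. -/

set_option autoImplicit false

namespace Pool.Agent.Helper65.CG

open scoped Classical
open Pool.Agent.Helper65.CliqueGame

namespace FamCount

/-- subsets of `S` with at most `k` elements -/
noncomputable def sub {α : Type} (S : Finset α) (k : ℕ) : Finset (Finset α) :=
  S.powerset.filter (fun A => A.card ≤ k)

theorem mem_sub {α : Type} {S : Finset α} {k : ℕ} {A : Finset α} :
    A ∈ sub S k ↔ A ⊆ S ∧ A.card ≤ k := by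
  simp [sub]

theorem sub_card {α : Type} (S : Finset α) (k : ℕ) : (sub S k).card ≤ (S.card + 1) ^ k := by
  induction k with
  | zero =>
    have h : sub S 0 ⊆ {∅} := by
      intro A hA
      have := (mem_sub.1 hA).2
      simpa using this
    simpa using Finset.card_le_card h
  | succ k ih =>
    have h : sub S (k + 1) ⊆
        Finset.image₂ (fun (A : Finset α) (o : Option α) => A ∪ o.toFinset) (sub S k)
          (Finset.insertNone S) := by
      intro A hA
      obtain ⟨hAS, hc⟩ := mem_sub.1 hA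
      rw [Finset.mem_image₂]
      by_cases hk : A.card ≤ k
      · exact ⟨A, mem_sub.2 ⟨hAS, hk⟩, none, by simp, by simp⟩
      · have hne : A.Nonempty := by
          rw [← Finset.card_pos]; omega
        obtain ⟨a, ha⟩ := hne
        refine ⟨A.erase a, mem_sub.2 ⟨(Finset.erase_subset _ _).trans hAS, ?_⟩, some a, ?_, ?_⟩
        · rw [Finset.card_erase_of_mem ha]; omega
        · simpa using hAS ha
        · ext b
          simp only [Finset.mem_union, Finset.mem_erase, Option.mem_toFinset, Option.mem_def,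
            Option.some.injEq]
          constructor
          · rintro (⟨-, hb⟩ | hb)
            · exact hb
            · exact hb ▸ ha
          · intro hb
            by_cases hba : b = a
            · exact Or.inr hba.symm
            · exact Or.inl ⟨hba, hb⟩
    calc (sub S (k + 1)).card ≤ _ := Finset.card_le_card h
      _ ≤ (sub S k).card * (Finset.insertNone S).card := Finset.card_image₂_le _ _ _
      _ ≤ (S.card + 1) ^ k * (S.card + 1) := by
          rw [Finset.card_insertNone]
          exact Nat.mul_le_mul_right _ ih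
      _ = (S.card + 1) ^ (k + 1) := (pow_succ _ _).symm

/-! ### logarithms -/

theorem lb_mono {a b : ℕ} (ha : 0 < a) (h : a ≤ b) : lb a ≤ lb b := by
  unfold lb
  exact Real.logb_le_logb_of_le (by norm_num) (by exact_mod_cast ha) (by exact_mod_cast h)

theorem lb_mul {a b : ℕ} (ha : 0 < a) (hb : 0 < b) : lb (a * b) = lb a + lb b := by
  unfold lb
  push_cast
  exact Real.logb_mul (by exact_mod_cast ha.ne') (by exact_mod_cast hb.ne')

theorem lb_pow (a k : ℕ) : lb (a ^ k) = k * lb a := by
  unfold lb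
  push_cast
  exact Real.logb_pow _ _ _

theorem lb_two : lb 2 = 1 := by
  unfold lb
  norm_num

theorem lb_succ_le (k : ℕ) : lb (k + 1) ≤ k := by
  have h : k + 1 ≤ 2 ^ k := Nat.lt_two_pow_self
  have := lb_mono (Nat.succ_pos k) h
  rw [lb_pow, lb_two, mul_one] at this
  exact this

theorem lb_nonneg (k : ℕ) : 0 ≤ lb k := by
  unfold lb
  rcases Nat.eq_zero_or_pos k with rfl | hk
  · simp
  · exact Real.logb_nonneg (by norm_num) (by exact_mod_cast hk)

theorem sq_succ (x : ℕ) : x ^ 2 + 1 ≤ (x + 1) ^ 2 := by nlinarith [Nat.zero_le x]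

/-! ### codes -/

variable {n q m : ℕ}

/-- a label function from its graph -/
noncomputable def dec (R : Finset (Sym2 (Fin n) × ℕ)) (e : Sym2 (Fin n)) : ℕ :=
  (R.filter (fun p => p.1 = e)).sup Prod.snd

theorem dec_graph (ℓ : Sym2 (Fin n) → ℕ) (U : Finset (Sym2 (Fin n))) {e : Sym2 (Fin n)}
    (he : e ∈ U) : dec (U.image (fun e => (e, ℓ e))) e = ℓ e := by
  have h : (U.image (fun e => (e, ℓ e))).filter (fun p => p.1 = e) = {(e, ℓ e)} := by
    ext ⟨a, b⟩
    simp only [Finset.mem_filter, Finset.mem_image, Prod.mk.injEq, Finset.mem_singleton]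
    constructor
    · rintro ⟨⟨c, -, rfl, rfl⟩, rfl⟩
      exact ⟨rfl, rfl⟩
    · rintro ⟨rfl, rfl⟩
      exact ⟨⟨a, he, rfl, rfl⟩, rfl⟩
  rw [dec, h]
  simp

theorem ga_congr' {ℓ ℓ' : Sym2 (Fin n) → ℕ} {U : Finset (Sym2 (Fin n))}
    (h : ∀ e ∈ U, ℓ e = ℓ' e) : ga ℓ U = ga ℓ' U := by
  have h1 : U.image ℓ = U.image ℓ' := Finset.image_congr (fun e he => h e he)
  unfold ga
  rw [h1]
  refine Finset.sum_congr rfl fun a _ => ?_
  have h2 : cnt ℓ U a = cnt ℓ' U a := by
    unfold cnt
    congr 1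
    exact Finset.filter_congr (fun e he => by rw [h e he])
  rw [h2]

theorem cond_congr {ℓ ℓ' : Sym2 (Fin n) → ℕ} {Z : Conf q n} {Y : Prs q}
    (h : ∀ e ∈ UU Z Y, ℓ e = ℓ' e) (Ex : Finset ((Fin q × Fin q) × Sym2 (Fin n))) (g : ℕ) :
    Cond ℓ Z Y Ex g ↔ Cond ℓ' Z Y Ex g := by
  unfold Cond
  rw [ga_congr' h]
  have h2 : Alive ℓ (UU Z Y) ↔ Alive ℓ' (UU Z Y) := by
    unfold Alive
    constructor
    · intro H e he; rw [← h e he]; exact H e he
    · intro H e he; rw [h e he]; exact H e he
  rw [h2]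

/-- codes of levels -/
abbrev LC (q n : ℕ) :=
  Prs q × Finset ((Fin q × Fin q) × Sym2 (Fin n)) × ℕ × Finset (Sym2 (Fin n) × ℕ)

/-- the code of a level -/
noncomputable def enc (ℓ : Sym2 (Fin n) → ℕ) (V : Fin q → Finset (Finset (Fin n)))
    (l : Lev q n) : LC q n :=
  (l.Y, l.Ex, l.g, (LowY V l.Y).image (fun e => (e, ℓ e)))

/-- the family given by a code -/
noncomputable def FamC (V : Fin q → Finset (Finset (Fin n))) (Λ : Finset (LC q n)) (x : ℕ) :
    Finset (Conf q n) :=
  Finset.univ.filter (fun Z => (∀ P, Z P ∈ V P) ∧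
    ∀ l ∈ Λ, ∃ X ⊆ l.1, X.card ≤ x ∧ Cond (dec l.2.2.2) Z (l.1 \ X) l.2.1 l.2.2.1)

theorem UU_subset_LowY {Z : Conf q n} {V : Fin q → Finset (Finset (Fin n))}
    (h : ∀ P, Z P ∈ V P) (Y : Prs q) {Y' : Prs q} (hY : Y' ⊆ Y) : UU Z Y' ⊆ LowY V Y := by
  intro e he
  unfold UU at he
  obtain ⟨p, hp, he⟩ := Finset.mem_biUnion.1 he
  unfold LowY
  refine Finset.mem_biUnion.2 ⟨p, hY hp, Finset.mem_biUnion.2 ⟨(Z p.1, Z p.2), ?_, he⟩⟩
  exact Finset.mem_product.2 ⟨h _, h _⟩

theorem fam_eq (ℓ : Sym2 (Fin n) → ℕ) (V : Fin q → Finset (Finset (Fin n)))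
    (lev : List (Lev q n)) (x : ℕ) :
    Fam ℓ V lev x = FamC V (lev.map (enc ℓ V)).toFinset x := by
  unfold Fam FamC
  refine Finset.filter_congr fun Z _ => ?_
  refine and_congr_right fun hZ => ?_
  simp only [List.mem_toFinset, List.mem_map, forall_exists_index, and_imp,
    forall_apply_eq_imp_iff₂]
  refine forall_congr' fun l => forall_congr' fun _ => ?_
  refine exists_congr fun X => and_congr_right fun _ => and_congr_right fun _ => ?_
  simp only [enc]
  refine cond_congr (fun e he => ?_) _ _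
  rw [dec_graph]
  exact UU_subset_LowY hZ l.Y Finset.sdiff_subset he

/-- all level codes -/
noncomputable def LCs (q n d s : ℕ) : Finset (LC q n) :=
  Finset.univ ×ˢ (sub Finset.univ s ×ˢ (Finset.range ((q * d) ^ 2 + 1) ×ˢ
    sub (Finset.univ ×ˢ Finset.range (n ^ 2 + 2)) s))

theorem enc_mem {ℓ : Sym2 (Fin n) → ℕ} (hℓ : Lab m ℓ) {V : Fin q → Finset (Finset (Fin n))}
    {d s : ℕ} {l : Lev q n} (h : (LowY V l.Y).card ≤ s ∧ l.Ex.card ≤ s ∧ l.g ≤ (q * d) ^ 2) :
    enc ℓ V l ∈ LCs q n d s := by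
  unfold enc LCs
  simp only [Finset.mem_product, Finset.mem_univ, true_and, Finset.mem_range, mem_sub,
    Finset.subset_univ]
  refine ⟨h.2.1, by omega, ?_, Finset.card_image_le.trans h.1⟩
  intro p hp
  obtain ⟨e, -, rfl⟩ := Finset.mem_image.1 hp
  simp only [Finset.mem_product, Finset.mem_univ, true_and, Finset.mem_range]
  have := hℓ.bd e
  omega

theorem card_sym2 (n : ℕ) : Fintype.card (Sym2 (Fin n)) ≤ n * n := by
  have h := Fintype.card_le_of_surjective (fun p : Fin n × Fin n => s(p.1, p.2)) (by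
    intro e
    induction e with
    | _ a b => exact ⟨(a, b), rfl⟩)
  simpa using h

theorem LCs_card (q n d s : ℕ) :
    (LCs q n d s).card ≤ 2 ^ (q * q) * ((q * q * (n * n) + 1) ^ s *
      (((q * d) ^ 2 + 1) * (n * n * (n ^ 2 + 2) + 1) ^ s)) := by
  unfold LCs
  rw [Finset.card_product, Finset.card_product, Finset.card_product]
  refine Nat.mul_le_mul ?_ (Nat.mul_le_mul ?_ (Nat.mul_le_mul ?_ ?_))
  · simp
  · refine (sub_card _ _).trans (Nat.pow_le_pow_left ?_ _)
    rw [Finset.card_univ, Fintype.card_prod, Fintype.card_prod, Fintype.card_fin]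
    have := card_sym2 n
    gcongr
  · simp
  · refine (sub_card _ _).trans (Nat.pow_le_pow_left ?_ _)
    rw [Finset.card_product, Finset.card_univ, Finset.card_range]
    have := card_sym2 n
    gcongr

theorem sub_univ_card (n d : ℕ) :
    (sub (Finset.univ : Finset (Fin n)) d).card ≤ (n + 1) ^ d := by
  have := sub_card (Finset.univ : Finset (Fin n)) d
  simpa using this

end FamCount

open FamCount

theorem fam_count (m q d J s n : ℕ) (hn : 2 ≤ n) (hs : 1 ≤ s) :
    ∃ FF : Finset (Finset (Conf q n)),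
      lb FF.card ≤ 20 * (d + 1) * (J + 1) * (q + 1) ^ 3 * (Lg n + 1) * s ∧
      ∀ ℓ : Sym2 (Fin n) → ℕ, Lab m ℓ → ∀ V (lev : List (Lev q n)) x, Cpx V lev x d J s →
        Fam ℓ V lev x ∈ FF := by
  let VV : Finset (Fin q → Finset (Finset (Fin n))) :=
    Fintype.piFinset (fun _ => sub (sub Finset.univ d) s)
  let CC : Finset ((Fin q → Finset (Finset (Fin n))) × Finset (LC q n) × ℕ) :=
    VV ×ˢ (sub (LCs q n d s) J ×ˢ Finset.range (q ^ 2 + 1))
  refine ⟨CC.image (fun c => FamC c.1 c.2.1 c.2.2), ?_, ?_⟩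
  · set L := Lg n with hL
    have hL1 : 1 ≤ L := by
      have := lb_mono (by norm_num) hn
      rw [lb_two] at this
      exact this
    -- the natural number bound
    set A : ℕ := (n + 1) ^ d + 1 with hA
    set B : ℕ := 2 ^ (q * q) * ((q * q * (n * n) + 1) ^ s *
      (((q * d) ^ 2 + 1) * (n * n * (n ^ 2 + 2) + 1) ^ s)) with hB
    have hApos : 0 < A := by positivity
    have hBpos : 0 < B := by positivity
    have hcard : (CC.image (fun c => FamC c.1 c.2.1 c.2.2)).card ≤
        (A ^ s) ^ q * ((B + 1) ^ J * (q ^ 2 + 1)) := by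
      refine Finset.card_image_le.trans ?_
      show (VV ×ˢ (sub (LCs q n d s) J ×ˢ Finset.range (q ^ 2 + 1))).card ≤ _
      rw [Finset.card_product, Finset.card_product, Finset.card_range]
      refine Nat.mul_le_mul ?_ (Nat.mul_le_mul_right _ ?_)
      · show (Fintype.piFinset (fun _ : Fin q => sub (sub (Finset.univ : Finset (Fin n)) d) s)).card ≤ _
        rw [Fintype.card_piFinset]
        simp only [Finset.prod_const, Finset.card_univ, Fintype.card_fin]
        refine Nat.pow_le_pow_left ((sub_card _ _).trans (Nat.pow_le_pow_left ?_ _)) _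
        have := sub_univ_card n d
        omega
      · refine (sub_card _ _).trans (Nat.pow_le_pow_left ?_ _)
        have := LCs_card q n d s
        omega
    -- logarithms of the pieces
    have hLn : lb n = L := rfl
    have hn1 : lb (n + 1) ≤ L + 1 := by
      have h : n + 1 ≤ 2 * n := by omega
      have := lb_mono (by omega : 0 < n + 1) h
      rw [lb_mul (by norm_num) (by omega), lb_two, hLn] at this
      linarith
    have hAle : lb A ≤ (d + 1) * (L + 1) := by
      have h : A ≤ 2 * (n + 1) ^ d := by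
        have : 1 ≤ (n + 1) ^ d := Nat.one_le_pow _ _ (Nat.succ_pos n)
        omega
      have := lb_mono hApos h
      rw [lb_mul (by norm_num) (by positivity), lb_two, lb_pow] at this
      have hd : (d : ℝ) * lb (n + 1) ≤ d * (L + 1) := by gcongr
      have hd2 : ((d : ℝ) + 1) * (L + 1) = d * (L + 1) + L + 1 := by ring
      linarith
    have h1 : lb (q * q * (n * n) + 1) ≤ 2 * q + 2 * L := by
      have h : q * q * (n * n) + 1 ≤ ((q + 1) * n) ^ 2 := by nlinarith
      have := lb_mono (by omega : 0 < q * q * (n * n) + 1) h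
      rw [lb_pow, lb_mul (by omega) (by omega), hLn] at this
      have h2 := lb_succ_le q
      push_cast at this
      linarith
    have h2 : lb ((q * d) ^ 2 + 1) ≤ 2 * (q * d) := by
      have h : (q * d) ^ 2 + 1 ≤ (q * d + 1) ^ 2 := sq_succ _
      have := lb_mono (by omega : 0 < (q * d) ^ 2 + 1) h
      rw [lb_pow] at this
      have h2 := lb_succ_le (q * d)
      push_cast at this h2
      linarith
    have h3 : lb (n * n * (n ^ 2 + 2) + 1) ≤ 4 * L + 2 := by
      have h : n * n * (n ^ 2 + 2) + 1 ≤ (2 * n ^ 2) ^ 2 := by nlinarith [Nat.pow_le_pow_left hn 2]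
      have := lb_mono (by omega : 0 < n * n * (n ^ 2 + 2) + 1) h
      rw [lb_pow, lb_mul (by norm_num) (by positivity), lb_pow, lb_two, hLn] at this
      push_cast at this
      linarith
    have h4 : lb (q ^ 2 + 1) ≤ 2 * q := by
      have h : q ^ 2 + 1 ≤ (q + 1) ^ 2 := sq_succ _
      have := lb_mono (by omega : 0 < q ^ 2 + 1) h
      rw [lb_pow] at this
      have h2 := lb_succ_le q
      push_cast at this
      linarith
    have hs1 : (1 : ℝ) ≤ s := by exact_mod_cast hs
    have hq0 : (0 : ℝ) ≤ q := Nat.cast_nonneg _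
    have hd0 : (0 : ℝ) ≤ d := Nat.cast_nonneg _
    have hJ0 : (0 : ℝ) ≤ J := Nat.cast_nonneg _
    have hBle : lb (B + 1) ≤ 10 * (s * (d + 1) * (q + 1) ^ 2 * (L + 1)) := by
      have h : B + 1 ≤ 2 * B := by omega
      have := lb_mono (by omega : 0 < B + 1) h
      rw [lb_mul (by norm_num) hBpos, lb_two, hB, lb_mul (by positivity) (by positivity),
        lb_mul (by positivity) (by positivity), lb_mul (by positivity) (by positivity),
        lb_pow, lb_pow, lb_pow, lb_two] at this
      have e1 : (s : ℝ) * lb (q * q * (n * n) + 1) ≤ s * (2 * q + 2 * L) := by gcongr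
      have e2 : (s : ℝ) * lb (n * n * (n ^ 2 + 2) + 1) ≤ s * (4 * L + 2) := by gcongr
      push_cast at this
      have key : 1 + ((q : ℝ) * q + (s * (2 * q + 2 * L) + (2 * (q * d) + s * (4 * L + 2)))) ≤
          10 * (s * (d + 1) * (q + 1) ^ 2 * (L + 1)) := by
        have f1 : (1 : ℝ) ≤ s * (d + 1) * (q + 1) ^ 2 * (L + 1) := by
          have : (1 : ℝ) ≤ (q + 1) ^ 2 := by nlinarith
          have a1 : (1 : ℝ) ≤ s * (d + 1) := one_le_mul_of_one_le_of_one_le hs1 (by linarith)
          have a2 : (1 : ℝ) ≤ s * (d + 1) * (q + 1) ^ 2 := one_le_mul_of_one_le_of_one_le a1 this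
          exact one_le_mul_of_one_le_of_one_le a2 (by linarith)
        have base : (1 : ℝ) ≤ s * (d + 1) := one_le_mul_of_one_le_of_one_le hs1 (by linarith)
        have f2 : (q : ℝ) * q ≤ s * (d + 1) * (q + 1) ^ 2 * (L + 1) := by
          have a1 : (q : ℝ) * q ≤ (q + 1) ^ 2 := by nlinarith
          have a2 : (q + 1 : ℝ) ^ 2 ≤ s * (d + 1) * (q + 1) ^ 2 :=
            le_mul_of_one_le_left (by positivity) base
          have a3 : (s : ℝ) * (d + 1) * (q + 1) ^ 2 ≤ s * (d + 1) * (q + 1) ^ 2 * (L + 1) :=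
            le_mul_of_one_le_right (by positivity) (by linarith)
          linarith
        have f3 : (s : ℝ) * (q + L) ≤ s * (d + 1) * (q + 1) ^ 2 * (L + 1) := by
          have a1 : (q + L : ℝ) ≤ (q + 1) ^ 2 * (L + 1) := by nlinarith
          have a2 : (s : ℝ) * (q + L) ≤ s * ((q + 1) ^ 2 * (L + 1)) := by gcongr
          have a3 : (s : ℝ) * ((q + 1) ^ 2 * (L + 1)) ≤ (d + 1) * (s * ((q + 1) ^ 2 * (L + 1))) :=
            le_mul_of_one_le_left (by positivity) (by linarith)
          have a4 : (d + 1 : ℝ) * (s * ((q + 1) ^ 2 * (L + 1))) =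
              s * (d + 1) * (q + 1) ^ 2 * (L + 1) := by ring
          linarith
        have f4 : (q : ℝ) * d ≤ s * (d + 1) * (q + 1) ^ 2 * (L + 1) := by
          have a1 : (q : ℝ) * d ≤ (d + 1) * (q + 1) ^ 2 := by nlinarith [mul_nonneg hq0 hd0]
          have a2 : (d + 1 : ℝ) * (q + 1) ^ 2 ≤ s * ((d + 1) * (q + 1) ^ 2) :=
            le_mul_of_one_le_left (by positivity) hs1
          have a3 : (s : ℝ) * ((d + 1) * (q + 1) ^ 2) ≤ s * ((d + 1) * (q + 1) ^ 2) * (L + 1) :=
            le_mul_of_one_le_right (by positivity) (by linarith)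
          have a4 : (s : ℝ) * ((d + 1) * (q + 1) ^ 2) * (L + 1) =
              s * (d + 1) * (q + 1) ^ 2 * (L + 1) := by ring
          linarith
        have f5 : (s : ℝ) * (4 * L + 2) ≤ 4 * (s * (d + 1) * (q + 1) ^ 2 * (L + 1)) := by
          have a1 : (4 * L + 2 : ℝ) ≤ 4 * (L + 1) := by linarith
          have a2 : (1 : ℝ) ≤ (d + 1) * (q + 1) ^ 2 :=
            one_le_mul_of_one_le_of_one_le (by linarith) (by nlinarith)
          have a3 : (s : ℝ) * (4 * L + 2) ≤ s * (4 * (L + 1)) := by gcongr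
          have a4 : (s : ℝ) * (4 * (L + 1)) ≤ ((d + 1) * (q + 1) ^ 2) * (s * (4 * (L + 1))) :=
            le_mul_of_one_le_left (by positivity) a2
          have a5 : ((d + 1 : ℝ) * (q + 1) ^ 2) * (s * (4 * (L + 1))) =
              4 * (s * (d + 1) * (q + 1) ^ 2 * (L + 1)) := by ring
          linarith
        linarith
      linarith
    have hRHS : (0 : ℝ) ≤ 20 * (d + 1) * (J + 1) * (q + 1) ^ 3 * (L + 1) * s := by positivity
    rcases Nat.eq_zero_or_pos (CC.image (fun c => FamC c.1 c.2.1 c.2.2)).card with h0 | h0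
    · rw [h0]
      have : lb 0 = 0 := by unfold lb; simp
      rw [this]
      exact hRHS
    · have := lb_mono h0 hcard
      rw [lb_mul (by positivity) (by positivity), lb_mul (by positivity) (by positivity),
        lb_pow, lb_pow, lb_pow] at this
      have g1 : (q : ℝ) * (s * lb A) ≤ q * (s * ((d + 1) * (L + 1))) := by gcongr
      have g2 : (J : ℝ) * lb (B + 1) ≤ J * (10 * (s * (d + 1) * (q + 1) ^ 2 * (L + 1))) := by
        gcongr
      set W : ℝ := s * (d + 1) * (q + 1) ^ 2 * (L + 1) with hW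
      have hWpos : 0 ≤ W := by positivity
      have k1 : (q : ℝ) * (s * ((d + 1) * (L + 1))) ≤ W := by
        have a1 : (q : ℝ) ≤ (q + 1) ^ 2 := by nlinarith
        have a2 : (q : ℝ) * (s * ((d + 1) * (L + 1))) ≤ (q + 1) ^ 2 * (s * ((d + 1) * (L + 1))) := by
          gcongr
        have a3 : (q + 1 : ℝ) ^ 2 * (s * ((d + 1) * (L + 1))) = W := by rw [hW]; ring
        linarith
      have k2 : 2 * (q : ℝ) ≤ W := by
        have a1 : 2 * (q : ℝ) ≤ (q + 1) ^ 2 := by nlinarith
        have a2 : (1 : ℝ) ≤ s * (d + 1) * (L + 1) :=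
          one_le_mul_of_one_le_of_one_le (one_le_mul_of_one_le_of_one_le hs1 (by linarith))
            (by linarith)
        have a3 : (q + 1 : ℝ) ^ 2 ≤ (s * (d + 1) * (L + 1)) * (q + 1) ^ 2 :=
          le_mul_of_one_le_left (by positivity) a2
        have a4 : (s * (d + 1) * (L + 1) : ℝ) * (q + 1) ^ 2 = W := by rw [hW]; ring
        linarith
      have tot : lb (CC.image (fun c => FamC c.1 c.2.1 c.2.2)).card ≤ W + (J * (10 * W) + W) := by
        linarith
      have k3 : W + (J * (10 * W) + W) ≤ 20 * (J + 1) * W := by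
        have a1 : 20 * (J + 1) * W = 20 * (J * W) + 20 * W := by ring
        have a2 : W + (J * (10 * W) + W) = 10 * (J * W) + 2 * W := by ring
        have a3 : 0 ≤ (J : ℝ) * W := mul_nonneg hJ0 hWpos
        linarith
      have k4 : 20 * (J + 1) * W ≤ 20 * (d + 1) * (J + 1) * (q + 1) ^ 3 * (L + 1) * s := by
        have a1 : 20 * (J + 1) * W ≤ (q + 1) * (20 * (J + 1) * W) :=
          le_mul_of_one_le_left (by positivity) (by linarith)
        have a2 : (q + 1) * (20 * (J + 1) * W) =
            20 * (d + 1) * (J + 1) * (q + 1) ^ 3 * (L + 1) * s := by rw [hW]; ring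
        linarith
      linarith
  · intro ℓ hℓ V lev x hC
    obtain ⟨c1, c2, c3, c4, c5⟩ := hC
    rw [fam_eq]
    refine Finset.mem_image.2 ⟨(V, (lev.map (enc ℓ V)).toFinset, x), ?_, rfl⟩
    show (V, (lev.map (enc ℓ V)).toFinset, x) ∈
      VV ×ˢ (sub (LCs q n d s) J ×ˢ Finset.range (q ^ 2 + 1))
    simp only [Finset.mem_product, Finset.mem_range]
    refine ⟨?_, ?_, by omega⟩
    · show V ∈ Fintype.piFinset (fun _ => sub (sub Finset.univ d) s)
      rw [Fintype.mem_piFinset]
      intro P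
      exact mem_sub.2 ⟨fun v hv => mem_sub.2 ⟨Finset.subset_univ _, c4 P v hv⟩, c3 P⟩
    · refine mem_sub.2 ⟨?_, ?_⟩
      · intro c hc
        rw [List.mem_toFinset, List.mem_map] at hc
        obtain ⟨l, hl, rfl⟩ := hc
        exact enc_mem hℓ (c5 l hl)
      · refine (List.toFinset_card_le _).trans ?_
        rw [List.length_map]
        exact c1

end Pool.Agent.Helper65.CG
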